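import Mathlib

open Filter Topology

namespace Pool.Agent.Results.MP_7e7193_an.Bound

section Ekeland

variable {X : Type*} [NormedAddCommGroup X] [NormedSpace ℝ X] [CompleteSpace X]

/-- Ekeland variational principle for a continuous nonnegative function on a Banach space -/
theorem ekeland (Ψ : X → ℝ) (hc : Continuous Ψ) (h0 : ∀ z, 0 ≤ Ψ z) (z0 : X) (η : ℝ) (hη : 0 < η) :
    ∃ z, Ψ z ≤ Ψ z0 ∧ ∀ z', Ψ z ≤ Ψ z' + η * ‖z' - z‖ := by
  classical
  -- the set below z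
  set S : X → Set X := fun z => {z' | Ψ z' + η * ‖z' - z‖ ≤ Ψ z} with hS
  have hself : ∀ z, z ∈ S z := by intro z; simp [hS]
  have hstep : ∀ (z : X) (n : ℕ), ∃ z' ∈ S z, ∀ u ∈ S z, Ψ z' ≤ Ψ u + (1 / 2 : ℝ) ^ n := by
    intro z n
    have hb : BddBelow (Ψ '' S z) := ⟨0, by rintro _ ⟨u, _, rfl⟩; exact h0 u⟩
    have hne : (Ψ '' S z).Nonempty := ⟨_, z, hself z, rfl⟩
    have hpos : (0 : ℝ) < (1 / 2 : ℝ) ^ n := by positivity
    obtain ⟨_, ⟨z', hz', rfl⟩, hlt⟩ := exists_lt_of_csInf_lt hne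
      (show sInf (Ψ '' S z) < sInf (Ψ '' S z) + (1 / 2 : ℝ) ^ n by linarith)
    refine ⟨z', hz', fun u hu => ?_⟩
    have := csInf_le hb ⟨u, hu, rfl⟩
    linarith
  choose nx hnx1 hnx2 using hstep
  let zs : ℕ → X := fun n => Nat.rec z0 (fun n z => nx z n) n
  have hzs : ∀ n, zs (n + 1) = nx (zs n) n := fun n => rfl
  have hmem : ∀ n, zs (n + 1) ∈ S (zs n) := fun n => by rw [hzs]; exact hnx1 _ _
  have htrans : ∀ a b c : X, b ∈ S a → c ∈ S b → c ∈ S a := by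
    intro a b c hb hc'
    simp only [hS, Set.mem_setOf_eq] at *
    have h1 : ‖c - a‖ ≤ ‖c - b‖ + ‖b - a‖ := by
      have : c - a = (c - b) + (b - a) := by abel
      rw [this]; exact norm_add_le _ _
    have h2 := mul_le_mul_of_nonneg_left h1 hη.le
    rw [mul_add] at h2
    linarith
  have hmem2 : ∀ n k, zs (n + k) ∈ S (zs n) := by
    intro n k
    induction k with
    | zero => exact hself _
    | succ k ih => exact htrans _ _ _ ih (hmem (n + k))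
  have hdist : ∀ n u, u ∈ S (zs (n + 1)) → η * ‖u - zs (n + 1)‖ ≤ (1 / 2 : ℝ) ^ n := by
    intro n u hu
    have h1 : u ∈ S (zs n) := htrans _ _ _ (hmem n) hu
    have h2 := hnx2 (zs n) n u h1
    rw [← hzs] at h2
    simp only [hS, Set.mem_setOf_eq] at hu
    linarith
  have hcau : CauchySeq (fun n => zs (n + 1)) := by
    apply cauchySeq_of_le_geometric (1 / 2 : ℝ) (1 / η) (by norm_num)
    intro n
    have h1 := hdist n (zs (n + 1 + 1)) (hmem2 (n + 1) 1)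
    rw [dist_comm, dist_eq_norm, div_mul_eq_mul_div, one_mul, le_div_iff₀ hη, mul_comm]
    exact h1
  obtain ⟨z, hz⟩ := cauchySeq_tendsto_of_complete hcau
  have hz' : Tendsto zs atTop (𝓝 z) := (tendsto_add_atTop_iff_nat 1).1 hz
  have hzS : ∀ n, z ∈ S (zs n) := by
    intro n
    simp only [hS, Set.mem_setOf_eq]
    have h1 : Tendsto (fun k => Ψ (zs (n + k)) + η * ‖zs (n + k) - zs n‖) atTop
        (𝓝 (Ψ z + η * ‖z - zs n‖)) := by
      have h2 : Tendsto (fun k => zs (n + k)) atTop (𝓝 z) := by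
        have := (tendsto_add_atTop_iff_nat n).2 hz'
        refine this.congr fun k => ?_
        rw [add_comm]
      exact ((hc.tendsto z).comp h2).add (((h2.sub_const (zs n)).norm).const_mul η)
    exact le_of_tendsto h1 (Eventually.of_forall fun k => hmem2 n k)
  refine ⟨z, ?_, ?_⟩
  · have := hzS 0
    simp only [hS, Set.mem_setOf_eq] at this
    have h1 : zs 0 = z0 := rfl
    rw [h1] at this
    have h2 : 0 ≤ η * ‖z - z0‖ := by positivity
    linarith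
  · intro z'
    by_contra hcon
    push Not at hcon
    have hz'S : z' ∈ S z := by
      simp only [hS, Set.mem_setOf_eq]
      exact hcon.le
    have hall : ∀ n, η * ‖z' - zs (n + 1)‖ ≤ (1 / 2 : ℝ) ^ n := fun n =>
      hdist n z' (htrans _ _ _ (hzS (n + 1)) hz'S)
    have hlim1 : Tendsto (fun n => η * ‖z' - zs (n + 1)‖) atTop (𝓝 (η * ‖z' - z‖)) :=
      ((hz.const_sub z').norm).const_mul η
    have hlim2 : Tendsto (fun n : ℕ => (1 / 2 : ℝ) ^ n) atTop (𝓝 0) :=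
      tendsto_pow_atTop_nhds_zero_of_lt_one (by norm_num) (by norm_num)
    have h3 := le_of_tendsto_of_tendsto' hlim1 hlim2 hall
    have h4 : ‖z' - z‖ = 0 := by
      have : 0 ≤ ‖z' - z‖ := norm_nonneg _
      nlinarith
    have h5 : z' = z := by
      rw [norm_eq_zero] at h4
      exact sub_eq_zero.1 h4
    rw [h5] at hcon
    simp at hcon

end Ekeland

section HB

variable {X : Type*} [NormedAddCommGroup X] [NormedSpace ℝ X]

/-- sum rule from the Hahn-Banach theorem -/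
theorem sum_rule (x z : X) (hx : x ≠ 0) (f : X →L[ℝ] ℝ) (hf : ‖f‖ ≤ 1) (k η : ℝ) (hk : 0 < k)
    (hη : 0 < η)
    (hmin : ∀ v, f v ≤ (‖z + v‖ - ‖z‖) + k * (‖z - x + v‖ - ‖z - x‖) + η * ‖v‖) :
    ∃ g q : X →L[ℝ] ℝ, ‖g‖ ≤ 1 ∧ g z = ‖z‖ ∧ ‖q‖ ≤ 1 ∧ q (z - x) = ‖z - x‖ ∧
      ‖f - g - k • q‖ ≤ η := by
  set M : ℝ := ‖z‖ + k * ‖z - x‖ with hM
  set T : (X × ℝ) →ₗ[ℝ] (X × X × X) :=
    { toFun := fun p => (p.1 + p.2 • z, p.1 + p.2 • (z - x), p.1)
      map_add' := by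
        intro p q
        simp only [Prod.fst_add, Prod.snd_add, Prod.mk_add_mk, Prod.mk.injEq, add_smul]
        refine ⟨by abel, by abel, trivial⟩
      map_smul' := by
        intro c p
        simp only [Prod.smul_fst, Prod.smul_snd, RingHom.id_apply, Prod.smul_mk,
          smul_add, smul_eq_mul, mul_smul] } with hT
  have hTinj : Function.Injective T := by
    rw [injective_iff_map_eq_zero]
    rintro ⟨v, s⟩ h
    simp only [hT, LinearMap.coe_mk, AddHom.coe_mk, Prod.mk_eq_zero] at h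
    obtain ⟨h1, h2, h3⟩ := h
    subst h3
    rw [zero_add] at h1 h2
    have h4 : s • x = 0 := by
      rw [smul_sub, h1, zero_sub, neg_eq_zero] at h2
      exact h2
    rcases smul_eq_zero.1 h4 with h5 | h5
    · simp [h5]
    · exact absurd h5 hx
  set f0 : (X × ℝ) →ₗ[ℝ] ℝ :=
    { toFun := fun p => f p.1 + p.2 * M
      map_add' := by intro p q; simp only [Prod.fst_add, Prod.snd_add, map_add]; ring
      map_smul' := by
        intro c p
        simp only [Prod.smul_fst, Prod.smul_snd, map_smul, smul_eq_mul, RingHom.id_apply]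
        ring } with hf0
  set N : (X × X × X) → ℝ := fun p => ‖p.1‖ + k * ‖p.2.1‖ + η * ‖p.2.2‖ with hN
  have hfle : ∀ v, f v ≤ ‖v‖ := by
    intro v
    calc f v ≤ |f v| := le_abs_self _
      _ ≤ ‖f‖ * ‖v‖ := f.le_opNorm v
      _ ≤ 1 * ‖v‖ := mul_le_mul_of_nonneg_right hf (norm_nonneg _)
      _ = ‖v‖ := one_mul _
  have hdom : ∀ p, f0 p ≤ N (T p) := by
    rintro ⟨v, s⟩
    simp only [hf0, hN, hT, LinearMap.coe_mk, AddHom.coe_mk]
    rcases lt_trichotomy s 0 with hs | hs | hs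
    · -- s < 0
      have h1 : ‖v‖ ≤ ‖v + s • z‖ + (-s) * ‖z‖ := by
        calc ‖v‖ = ‖(v + s • z) + (-s) • z‖ := by
              congr 1
              rw [neg_smul]
              abel
          _ ≤ ‖v + s • z‖ + ‖(-s) • z‖ := norm_add_le _ _
          _ = ‖v + s • z‖ + (-s) * ‖z‖ := by
              rw [norm_smul, Real.norm_eq_abs, abs_of_pos (by linarith)]
      have h2 := hfle v
      have h3 : 0 ≤ k * ‖v + s • (z - x)‖ := by positivity
      have h4 : 0 ≤ η * ‖v‖ := by positivity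
      have h5 : 0 ≤ (-s) * (k * ‖z - x‖) := by
        apply mul_nonneg (by linarith)
        positivity
      rw [hM]
      nlinarith
    · subst hs
      simp only [zero_mul, zero_smul, add_zero]
      have h2 := hfle v
      have h3 : 0 ≤ k * ‖v‖ := by positivity
      have h4 : 0 ≤ η * ‖v‖ := by positivity
      linarith
    · have h1 := hmin (s⁻¹ • v)
      have h2 : f v = s * f (s⁻¹ • v) := by
        rw [map_smul, smul_eq_mul, ← mul_assoc, mul_inv_cancel₀ hs.ne', one_mul]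
      have h3 : ‖v + s • z‖ = s * ‖z + s⁻¹ • v‖ := by
        rw [← abs_of_pos hs, ← Real.norm_eq_abs, ← norm_smul, Real.norm_eq_abs, abs_of_pos hs]
        congr 1
        rw [smul_add, smul_smul, mul_inv_cancel₀ hs.ne', one_smul]
        abel
      have h4 : ‖v + s • (z - x)‖ = s * ‖z - x + s⁻¹ • v‖ := by
        rw [← abs_of_pos hs, ← Real.norm_eq_abs, ← norm_smul, Real.norm_eq_abs, abs_of_pos hs]
        congr 1
        rw [smul_add, smul_smul, mul_inv_cancel₀ hs.ne', one_smul]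
        abel
      have h5 : ‖v‖ = s * ‖s⁻¹ • v‖ := by
        rw [norm_smul, Real.norm_eq_abs, abs_of_pos (inv_pos.2 hs), ← mul_assoc,
          mul_inv_cancel₀ hs.ne', one_mul]
      rw [h3, h4]
      have h6 := mul_le_mul_of_nonneg_left h1 hs.le
      rw [← h2] at h6
      have h7 : η * ‖v‖ = s * (η * ‖s⁻¹ • v‖) := by rw [h5]; ring
      rw [h7, hM]
      linarith
  -- the partial functional
  set e := LinearEquiv.ofInjective T hTinj with he
  set P : (X × X × X) →ₗ.[ℝ] ℝ := ⟨LinearMap.range T, f0 ∘ₗ (e.symm : LinearMap.range T →ₗ[ℝ] X × ℝ)⟩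
    with hP
  have hN_hom : ∀ c : ℝ, 0 < c → ∀ p, N (c • p) = c * N p := by
    intro c hc p
    simp only [hN, Prod.smul_fst, Prod.smul_snd, norm_smul, Real.norm_eq_abs, abs_of_pos hc]
    ring
  have hN_add : ∀ p q, N (p + q) ≤ N p + N q := by
    intro p q
    simp only [hN, Prod.fst_add, Prod.snd_add]
    have h1 := norm_add_le p.1 q.1
    have h2 := mul_le_mul_of_nonneg_left (norm_add_le p.2.1 q.2.1) hk.le
    have h3 := mul_le_mul_of_nonneg_left (norm_add_le p.2.2 q.2.2) hη.le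
    linarith
  have hPle : ∀ p : P.domain, P p ≤ N p := by
    rintro ⟨_, ⟨p, rfl⟩⟩
    have h1 : e.symm ⟨T p, ⟨p, rfl⟩⟩ = p := by
      rw [LinearEquiv.symm_apply_eq]
      rfl
    show f0 (e.symm ⟨T p, ⟨p, rfl⟩⟩) ≤ N (T p)
    rw [h1]
    exact hdom p
  obtain ⟨F, hF1, hF2⟩ := exists_extension_of_le_sublinear P N hN_hom hN_add hPle
  have hFT : ∀ p, F (T p) = f0 p := by
    intro p
    have h2 : e.symm ⟨T p, ⟨p, rfl⟩⟩ = p := by
      rw [LinearEquiv.symm_apply_eq]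
      rfl
    have h1 : F (T p) = f0 (e.symm ⟨T p, ⟨p, rfl⟩⟩) := hF1 ⟨T p, ⟨p, rfl⟩⟩
    rw [h1, h2]
  set g0 : X →ₗ[ℝ] ℝ := F ∘ₗ LinearMap.inl ℝ X (X × X) with hg0
  set q0 : X →ₗ[ℝ] ℝ := k⁻¹ • (F ∘ₗ LinearMap.inr ℝ X (X × X) ∘ₗ LinearMap.inl ℝ X X) with hq0
  set p0 : X →ₗ[ℝ] ℝ := F ∘ₗ LinearMap.inr ℝ X (X × X) ∘ₗ LinearMap.inr ℝ X X with hp0
  have hbound : ∀ (l : X →ₗ[ℝ] ℝ) (c : ℝ), (∀ v, l v ≤ c * ‖v‖) → ∀ v, ‖l v‖ ≤ c * ‖v‖ := by
    intro l c h v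
    rw [Real.norm_eq_abs, abs_le]
    refine ⟨?_, h v⟩
    have := h (-v)
    rw [map_neg, norm_neg] at this
    linarith
  have hg0le : ∀ v, g0 v ≤ 1 * ‖v‖ := by
    intro v
    have h1 := hF2 (v, 0, 0)
    have h2 : N (v, 0, 0) = 1 * ‖v‖ := by simp [hN]
    rw [h2] at h1
    exact h1
  have hq0le : ∀ v, q0 v ≤ 1 * ‖v‖ := by
    intro v
    have h1 := hF2 (0, v, 0)
    have h2 : F (0, v, 0) ≤ k * ‖v‖ := by simpa [hN] using h1
    have h3 : q0 v = k⁻¹ * F (0, v, 0) := by simp [hq0]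
    rw [h3, one_mul]
    calc k⁻¹ * F (0, v, 0) ≤ k⁻¹ * (k * ‖v‖) := mul_le_mul_of_nonneg_left h2 (inv_pos.2 hk).le
      _ = ‖v‖ := by rw [← mul_assoc, inv_mul_cancel₀ hk.ne', one_mul]
  have hp0le : ∀ v, p0 v ≤ η * ‖v‖ := by
    intro v
    have h1 := hF2 (0, 0, v)
    have h2 : N (0, 0, v) = η * ‖v‖ := by simp [hN]
    rw [h2] at h1
    exact h1
  have hdecomp : ∀ u v w : X, F (u, v, w) = g0 u + k * q0 v + p0 w := by
    intro u v w
    have h1 : ((u, v, w) : X × X × X) = (u, 0, 0) + (0, v, 0) + (0, 0, w) := by simp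
    rw [h1, map_add, map_add]
    have h2 : g0 u = F (u, 0, 0) := rfl
    have h3 : q0 v = k⁻¹ * F (0, v, 0) := rfl
    have h4 : p0 w = F (0, 0, w) := rfl
    rw [h2, h3, h4, ← mul_assoc, mul_inv_cancel₀ hk.ne', one_mul]
  set g := g0.mkContinuous 1 (hbound g0 1 hg0le) with hg
  set q := q0.mkContinuous 1 (hbound q0 1 hq0le) with hq
  have hkey : g0 z + k * q0 (z - x) = ‖z‖ + k * ‖z - x‖ := by
    have h1 := hFT (0, 1)
    have h2 : T (0, 1) = (z, z - x, 0) := by simp [hT]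
    have h3 : f0 (0, 1) = M := by simp [hf0]
    rw [h2, h3, hdecomp] at h1
    rw [map_zero, add_zero] at h1
    exact h1
  have h1 := hg0le z
  have h2 := mul_le_mul_of_nonneg_left (hq0le (z - x)) hk.le
  rw [one_mul] at h1 h2
  refine ⟨g, q, LinearMap.mkContinuous_norm_le _ (by norm_num) _, ?_,
    LinearMap.mkContinuous_norm_le _ (by norm_num) _, ?_, ?_⟩
  · show g0 z = ‖z‖
    linarith
  · show q0 (z - x) = ‖z - x‖
    have h3 : k * q0 (z - x) = k * ‖z - x‖ := by linarith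
    exact mul_left_cancel₀ hk.ne' h3
  · apply ContinuousLinearMap.opNorm_le_bound _ hη.le
    intro v
    have h3 : (f - g - k • q) v = p0 v := by
      have h4 := hFT (v, 0)
      have h5 : T (v, 0) = (v, v, v) := by simp [hT]
      have h6 : f0 (v, 0) = f v := by simp [hf0]
      rw [h5, h6, hdecomp] at h4
      have h7 : (f - g - k • q) v = f v - g0 v - k * q0 v := by
        simp [hg, hq]
      rw [h7]
      linarith
    rw [h3]
    exact hbound p0 η hp0le v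

end HB

section Main

variable {X : Type*} [NormedAddCommGroup X] [NormedSpace ℝ X] [CompleteSpace X]

theorem core (x : X) (f : X →L[ℝ] ℝ) (hx : ‖x‖ = 1) (hf : ‖f‖ = 1) (k η : ℝ) (hk : 0 < k)
    (hη : 0 < η) : ∃ (z : X) (g q : X →L[ℝ] ℝ), ‖z‖ - f z + k * ‖z - x‖ ≤ 1 - f x ∧
      ‖g‖ ≤ 1 ∧ g z = ‖z‖ ∧ ‖q‖ ≤ 1 ∧ q (z - x) = ‖z - x‖ ∧ ‖f - g - k • q‖ ≤ η := by
  have hfle : ∀ v, f v ≤ ‖v‖ := by
    intro v
    calc f v ≤ |f v| := le_abs_self _
      _ ≤ ‖f‖ * ‖v‖ := f.le_opNorm v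
      _ = ‖v‖ := by rw [hf, one_mul]
  obtain ⟨z, hz1, hz2⟩ := ekeland (fun z : X => ‖z‖ - f z + k * ‖z - x‖) (by fun_prop)
    (by
      intro z
      have h1 := hfle z
      have h2 : 0 ≤ k * ‖z - x‖ := by positivity
      linarith) x η hη
  simp only [sub_self, norm_zero, mul_zero, add_zero, hx] at hz1
  have hx0 : x ≠ 0 := by
    intro h
    rw [h, norm_zero] at hx
    norm_num at hx
  obtain ⟨g, q, h1, h2, h3, h4, h5⟩ := sum_rule x z hx0 f hf.le k η hk hη (by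
    intro v
    have h := hz2 (z + v)
    have e1 : z + v - x = z - x + v := by abel
    have e2 : z + v - z = v := by abel
    rw [e1, e2, map_add] at h
    linarith)
  exact ⟨z, g, q, hz1, h1, h2, h3, h4, h5⟩

theorem norm_eq_one_of_attain (g : X →L[ℝ] ℝ) (y : X) (hg : ‖g‖ ≤ 1) (hy : ‖y‖ = 1)
    (h : |g y| = 1) : ‖g‖ = 1 := by
  apply le_antisymm hg
  have := g.le_opNorm y
  rw [Real.norm_eq_abs, h, hy, mul_one] at this
  exact this

/-- the bound by one -/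
theorem bound_one (x : X) (f : X →L[ℝ] ℝ) (hx : ‖x‖ = 1) (hf : ‖f‖ = 1) (h0 : 0 ≤ f x) (δ : ℝ)
    (hδ : 1 < δ) : ∃ (y : X) (g : X →L[ℝ] ℝ), ‖y‖ = 1 ∧ ‖g‖ = 1 ∧ |g y| = 1 ∧ ‖x - y‖ < δ ∧
      ‖f - g‖ < δ := by
  obtain ⟨z, g, q, hz, hg, hgz, hq, hqz, hr⟩ := core x f hx hf 1 ((δ - 1) / 2) one_pos (by linarith)
  rw [one_mul] at hz
  rw [one_smul] at hr
  have hfz : f z ≤ ‖z‖ := by
    calc f z ≤ |f z| := le_abs_self _
      _ ≤ ‖f‖ * ‖z‖ := f.le_opNorm z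
      _ = ‖z‖ := by rw [hf, one_mul]
  have hfzx : f z - f x ≤ ‖z - x‖ := by
    rw [← map_sub]
    calc f (z - x) ≤ |f (z - x)| := le_abs_self _
      _ ≤ ‖f‖ * ‖z - x‖ := f.le_opNorm _
      _ = ‖z - x‖ := by rw [hf, one_mul]
  set ρ := ‖z‖ with hρ
  set σ := ‖z - x‖ with hσ
  have hσ1 : σ ≤ 1 := by linarith
  have hρ1 : ρ ≤ 1 := by linarith
  have hsum : 1 ≤ ρ + σ := by
    rw [← hx]
    have : x = z - (z - x) := by abel
    calc ‖x‖ = ‖z - (z - x)‖ := by rw [← this]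
      _ ≤ ‖z‖ + ‖z - x‖ := norm_sub_le _ _
  have hρ0 : 0 ≤ ρ := norm_nonneg _
  have hσ0 : 0 ≤ σ := norm_nonneg _
  have hfg : ‖f - g‖ < δ := by
    have : f - g = (f - g - q) + q := by abel
    calc ‖f - g‖ = ‖(f - g - q) + q‖ := by rw [← this]
      _ ≤ ‖f - g - q‖ + ‖q‖ := norm_add_le _ _
      _ ≤ (δ - 1) / 2 + 1 := add_le_add hr hq
      _ < δ := by linarith
  have hfq : ‖f - q‖ < δ := by
    have : f - q = (f - g - q) + g := by abel
    calc ‖f - q‖ = ‖(f - g - q) + g‖ := by rw [← this]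
      _ ≤ ‖f - g - q‖ + ‖g‖ := norm_add_le _ _
      _ ≤ (δ - 1) / 2 + 1 := add_le_add hr hg
      _ < δ := by linarith
  rcases le_or_gt σ ρ with hle | hlt
  · have hρpos : 0 < ρ := by linarith
    have hy : ‖ρ⁻¹ • z‖ = 1 := by
      rw [norm_smul, Real.norm_eq_abs, abs_of_pos (inv_pos.2 hρpos), ← hρ, inv_mul_cancel₀ hρpos.ne']
    have hgy : |g (ρ⁻¹ • z)| = 1 := by
      rw [map_smul, hgz, smul_eq_mul, inv_mul_cancel₀ hρpos.ne', abs_one]
    refine ⟨ρ⁻¹ • z, g, hy, norm_eq_one_of_attain g _ hg hy hgy, hgy, ?_, hfg⟩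
    have h1 : x - ρ⁻¹ • z = (x - z) + (1 - ρ⁻¹) • z := by rw [sub_smul, one_smul]; abel
    have h2 : ‖(1 - ρ⁻¹) • z‖ = 1 - ρ := by
      rw [norm_smul, Real.norm_eq_abs, ← hρ]
      have h3 : 1 ≤ ρ⁻¹ := (one_le_inv₀ hρpos).2 hρ1
      rw [abs_of_nonpos (by linarith)]
      have h4 : ρ⁻¹ * ρ = 1 := inv_mul_cancel₀ hρpos.ne'
      nlinarith
    calc ‖x - ρ⁻¹ • z‖ = ‖(x - z) + (1 - ρ⁻¹) • z‖ := by rw [h1]
      _ ≤ ‖x - z‖ + ‖(1 - ρ⁻¹) • z‖ := norm_add_le _ _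
      _ = σ + (1 - ρ) := by rw [h2, norm_sub_rev]
      _ < δ := by linarith
  · have hσpos : 0 < σ := by linarith
    have hxz : ‖x - z‖ = σ := by rw [norm_sub_rev]
    have hy : ‖σ⁻¹ • (x - z)‖ = 1 := by
      rw [norm_smul, Real.norm_eq_abs, abs_of_pos (inv_pos.2 hσpos), hxz, inv_mul_cancel₀ hσpos.ne']
    have hqy : |q (σ⁻¹ • (x - z))| = 1 := by
      have h1 : q (x - z) = -σ := by
        rw [← hqz, ← map_neg]
        congr 1
        abel
      rw [map_smul, h1, smul_eq_mul, mul_neg, inv_mul_cancel₀ hσpos.ne', abs_neg, abs_one]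
    refine ⟨σ⁻¹ • (x - z), q, hy, norm_eq_one_of_attain q _ hq hy hqy, hqy, ?_, hfq⟩
    have h1 : x - σ⁻¹ • (x - z) = z + (1 - σ⁻¹) • (x - z) := by rw [sub_smul, one_smul]; abel
    have h2 : ‖(1 - σ⁻¹) • (x - z)‖ = 1 - σ := by
      rw [norm_smul, Real.norm_eq_abs, hxz]
      have h3 : 1 ≤ σ⁻¹ := (one_le_inv₀ hσpos).2 hσ1
      rw [abs_of_nonpos (by linarith)]
      have h4 : σ⁻¹ * σ = 1 := inv_mul_cancel₀ hσpos.ne'
      nlinarith
    calc ‖x - σ⁻¹ • (x - z)‖ = ‖z + (1 - σ⁻¹) • (x - z)‖ := by rw [h1]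
      _ ≤ ‖z‖ + ‖(1 - σ⁻¹) • (x - z)‖ := norm_add_le _ _
      _ = ρ + (1 - σ) := by rw [h2]
      _ < δ := by linarith

theorem bound_one' (x : X) (f : X →L[ℝ] ℝ) (hx : ‖x‖ = 1) (hf : ‖f‖ = 1) (δ : ℝ)
    (hδ : 1 < δ) : ∃ (y : X) (g : X →L[ℝ] ℝ), ‖y‖ = 1 ∧ ‖g‖ = 1 ∧ |g y| = 1 ∧ ‖x - y‖ < δ ∧
      ‖f - g‖ < δ := by
  rcases le_or_gt 0 (f x) with h | h
  · exact bound_one x f hx hf h δ hδ
  · obtain ⟨y, g, h1, h2, h3, h4, h5⟩ := bound_one x (-f) hx (by rw [norm_neg]; exact hf)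
      (by rw [ContinuousLinearMap.neg_apply]; linarith) δ hδ
    refine ⟨y, -g, h1, by rw [norm_neg]; exact h2, by rw [ContinuousLinearMap.neg_apply, abs_neg]; exact h3,
      h4, ?_⟩
    have : f - -g = -(-f - g) := by abel
    rw [this, norm_neg]
    exact h5

/-- the classical bound -/
theorem bound_sqrt (x : X) (f : X →L[ℝ] ℝ) (hx : ‖x‖ = 1) (hf : ‖f‖ = 1) (ε : ℝ) (hε : 0 < ε)
    (hε2 : ε < 2) (hfx : 1 - ε < f x) (δ : ℝ) (hδ : Real.sqrt (2 * ε) < δ) :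
    ∃ (y : X) (g : X →L[ℝ] ℝ), ‖y‖ = 1 ∧ ‖g‖ = 1 ∧ |g y| = 1 ∧ ‖x - y‖ < δ ∧ ‖f - g‖ < δ := by
  set k := Real.sqrt (2 * ε) with hk
  have hkpos : 0 < k := Real.sqrt_pos.2 (by linarith)
  have hk2 : k * k = 2 * ε := Real.mul_self_sqrt (by linarith)
  have hklt : k < 2 := by nlinarith
  obtain ⟨z, g, q, hz, hg, hgz, hq, hqz, hr⟩ := core x f hx hf k ((δ - k) / 2) hkpos (by linarith)
  have hfz : f z ≤ ‖z‖ := by
    calc f z ≤ |f z| := le_abs_self _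
      _ ≤ ‖f‖ * ‖z‖ := f.le_opNorm z
      _ = ‖z‖ := by rw [hf, one_mul]
  set ρ := ‖z‖ with hρ
  set σ := ‖z - x‖ with hσ
  have hσ0 : 0 ≤ σ := norm_nonneg _
  have hσk : 2 * σ < k := by
    have h1 : k * σ < ε := by linarith
    have h2 : k * (2 * σ) < k * k := by rw [hk2]; linarith
    exact lt_of_mul_lt_mul_left h2 hkpos.le
  have hab : |1 - ρ| ≤ σ := by
    have h1 : |‖x‖ - ‖z‖| ≤ ‖x - z‖ := abs_norm_sub_norm_le _ _
    rw [hx, norm_sub_rev] at h1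
    exact h1
  have hρpos : 0 < ρ := by
    have := (abs_le.1 hab).2
    linarith
  have hy : ‖ρ⁻¹ • z‖ = 1 := by
    rw [norm_smul, Real.norm_eq_abs, abs_of_pos (inv_pos.2 hρpos), ← hρ, inv_mul_cancel₀ hρpos.ne']
  have hgy : |g (ρ⁻¹ • z)| = 1 := by
    rw [map_smul, hgz, smul_eq_mul, inv_mul_cancel₀ hρpos.ne', abs_one]
  refine ⟨ρ⁻¹ • z, g, hy, norm_eq_one_of_attain g _ hg hy hgy, hgy, ?_, ?_⟩
  · have h1 : x - ρ⁻¹ • z = (x - z) + (1 - ρ⁻¹) • z := by rw [sub_smul, one_smul]; abel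
    have h2 : ‖(1 - ρ⁻¹) • z‖ = |1 - ρ| := by
      rw [norm_smul, Real.norm_eq_abs, ← hρ]
      have h3 : 1 - ρ⁻¹ = -((1 - ρ) * ρ⁻¹) := by field_simp; ring
      rw [h3, abs_neg, abs_mul, abs_of_pos (inv_pos.2 hρpos), mul_assoc,
        inv_mul_cancel₀ hρpos.ne', mul_one]
    calc ‖x - ρ⁻¹ • z‖ = ‖(x - z) + (1 - ρ⁻¹) • z‖ := by rw [h1]
      _ ≤ ‖x - z‖ + ‖(1 - ρ⁻¹) • z‖ := norm_add_le _ _
      _ = σ + |1 - ρ| := by rw [h2, norm_sub_rev]
      _ < δ := by linarith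
  · have : f - g = (f - g - k • q) + k • q := by abel
    calc ‖f - g‖ = ‖(f - g - k • q) + k • q‖ := by rw [← this]
      _ ≤ ‖f - g - k • q‖ + ‖k • q‖ := norm_add_le _ _
      _ ≤ (δ - k) / 2 + k := by
          apply add_le_add hr
          rw [norm_smul, Real.norm_eq_abs, abs_of_pos hkpos]
          nlinarith
      _ < δ := by linarith

end Main

/-- the Bishop-Phelps-Bollobas modulus Phi^S(X, R, eps) -/
noncomputable def Phi (X : Type*) [NormedAddCommGroup X] [NormedSpace ℝ X] (ε : ℝ) : ℝ :=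
  sInf {δ : ℝ | 0 < δ ∧ ∀ (x : X) (f : X →L[ℝ] ℝ), ‖x‖ = 1 → ‖f‖ = 1 → 1 - ε < f x →
    ∃ (y : X) (g : X →L[ℝ] ℝ), ‖y‖ = 1 ∧ ‖g‖ = 1 ∧ |g y| = 1 ∧ ‖x - y‖ < δ ∧ ‖f - g‖ < δ}

/-- Q1 is true. -/
theorem result.{u} (X : Type u) [NormedAddCommGroup X] [NormedSpace ℝ X] [CompleteSpace X]
    [Nontrivial X] (ε : ℝ) (hε : 0 < ε) (hε2 : ε < 2) :
    Phi X ε ≤ min (Real.sqrt (2 * ε)) 1 := by
  apply le_of_forall_pos_le_add
  intro η hη
  have hbdd : BddBelow {δ : ℝ | 0 < δ ∧ ∀ (x : X) (f : X →L[ℝ] ℝ), ‖x‖ = 1 → ‖f‖ = 1 → 1 - ε < f x →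
    ∃ (y : X) (g : X →L[ℝ] ℝ), ‖y‖ = 1 ∧ ‖g‖ = 1 ∧ |g y| = 1 ∧ ‖x - y‖ < δ ∧ ‖f - g‖ < δ} :=
    ⟨0, fun δ hδ => hδ.1.le⟩
  have hs0 : 0 ≤ Real.sqrt (2 * ε) := Real.sqrt_nonneg _
  apply csInf_le hbdd
  rcases le_total (Real.sqrt (2 * ε)) 1 with h | h
  · rw [min_eq_left h]
    exact ⟨by linarith, fun x f hx hf hfx => bound_sqrt x f hx hf ε hε hε2 hfx _ (by linarith)⟩
  · rw [min_eq_right h]
    exact ⟨by linarith, fun x f hx hf _ => bound_one' x f hx hf _ (by linarith)⟩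

end Pool.Agent.Results.MP_7e7193_an.Bound
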